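import Pool.Agent.Q8.BV.Final

/-!
# MP_498700_an, Q1: logarithmic growth of the mollified seminorms does not imply Besov regularity

The case `N = d = 1`, `q = 2`.
-/

set_option autoImplicit false

namespace Pool.Agent.Results.MP_498700_an.NotBesov

open Q8.BV MeasureTheory Filter
open scoped Topology ENNReal

/-- There is a function `u` in `L²(ℝ)` such that for every `η` in `W^{1,1}(ℝ)`
`limsup_{ε → 0+} [u * η_ε]²_{W^{1/2,2}} / |ln ε| < ∞`, while `u` is not in `B^{1/2}_{2,∞}(ℝ)`. -/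
theorem result : ∃ u : ℝ → ℝ, MemLp u 2 volume ∧
    (∀ η : ℝ → ℝ, W11 η →
      limsup (fun ε : ℝ => gag (moll η u ε) / ENNReal.ofReal |Real.log ε|) (𝓝[>] 0) < ⊤) ∧
    besov u = ⊤ :=
  ⟨u, u_memLp, fun _ h => log_growth h, besov_u⟩

end Pool.Agent.Results.MP_498700_an.NotBesov
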